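import Mathlib
import Pool.Agent.Work.MP_841263_al.Interface

/-!
# Perturbation along a functional (helper51), piece R2 of the path connectedness programme

`σ' = σ + η v` : charge `σ.Z x + η (v x) i e^{iπψ}`, so `σ'.im ψ = σ.im ψ + η v`, `σ'.re ψ = σ.re ψ`.
Result (`Stmt_RR2`): objects with phases in `[ψ, ψ + N]` whose part of phase `ψ + N` has only subobjects (in `P(ψ + N)`) with
`(-1)^N v ≤ 0` and whose part of phase `ψ` has only quotients (in `P(ψ)`) with `0 ≤ v` keep their phases in `[ψ, ψ + N]`, and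
`ker σ'.im ψ = ker σ.im ψ ∩ ker v`.

RULES: one file `Pool/Agent/Work/MP_841263_pt/B_<ID>.lean` per block, `import Pool.Agent.Work.MP_841263_pt.Interface`, the
`open`, `namespace Pool.Align` and `universe` lines of this file, theorem `p_<ID> : Stmt_X C → Stmt_Y C → Stmt_<ID> C` with
exactly the statements of the column `uses` as hypotheses, in this order (`LFT`, `NEA` are `Stmt_LFT C`, `Stmt_NEA C` of
`MP_841263_al/Interface.lean`). Auxiliary lemmas with the name of the block in front. Models: `MP_841263_tu/B_*.lean`,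
`MP_841263_c/Dist.lean`, `MP_841263_c/Est.lean` (`sub_In`, `quot_In`, `filter_phases`), `MP_841263_st/Charge.lean`.
-/

open CategoryTheory CategoryTheory.Limits CategoryTheory.Pretriangulated
open scoped ZeroObject Topology
open Filter

namespace Pool.Align

open Pool.Stab Pool.Tube

universe v u

/-- GEN (30 lines). The set of `η` with `im x + η * v x = 0` for some `x` with `v x ≠ 0` is countable (`K` is countable:
`Module.Finite ℤ K`, so it is finitely generated; for every `x` there is at most one `η`), and `(0, η₀]` is not. If `v x = 0`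
then `im x = 0`. -/
def Stmt_PGE : Prop := ∀ (K : Type u) [AddCommGroup K] [Module.Finite ℤ K] [Module.Free ℤ K]
  (im w : K →+ ℝ) (η₀ : ℝ), 0 < η₀ →
  ∃ η : ℝ, 0 < η ∧ η ≤ η₀ ∧ ∀ x, im x + η * w x = 0 → im x = 0 ∧ w x = 0

/-- PRK (50 lines). `ker im'` is contained in `ker im`; if the ranks were equal, the quotient `ker im / ker im'` would be
torsion, but it embeds into `ℝ` by `w`: `n • x ∈ ker im'` with `n ≠ 0` gives `n (w x) = 0`, so `w x = 0`. (Subgroups of `K` are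
free of finite rank; `Submodule.finrank_lt_finrank_of_lt` does not hold over `ℤ`, use `Submodule.finrank_quotient_add_finrank`
or `Module.finrank_eq_zero_iff_isTorsion`, or tensor with `ℚ`.) -/
def Stmt_PRK : Prop := ∀ (K : Type u) [AddCommGroup K] [Module.Finite ℤ K] [Module.Free ℤ K]
  (im im' w : K →+ ℝ), (∀ x, im' x = 0 ↔ im x = 0 ∧ w x = 0) → (∃ x, im x = 0 ∧ w x ≠ 0) →
  Module.finrank ℤ im'.ker < Module.finrank ℤ im.ker

variable {C : Type u} [Category.{v} C] [Preadditive C] [HasZeroObject C] [HasShift C ℤ]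
  [∀ n : ℤ, (shiftFunctor C n).Additive] [Pretriangulated C] [IsTriangulated C] [Linear ℂ C]
  [∀ n : ℤ, (shiftFunctor C n).Linear ℂ]

/-- The charge `σ.Z + η w i e^{iπψ}`. -/
def ChargeMove (σ τ : StabCond C) (ψ : ℝ) (w : K0 C →+ ℝ) (η : ℝ) : Prop :=
  ∀ x, τ.Z x = σ.Z x + ((η * w x : ℝ) : ℂ) * Complex.I * Complex.exp (Real.pi * ψ * Complex.I)

/-- The part `A` of `X` of phase `φ`, the largest phase: all `P(φ)`-subobjects of `A` have `w ≤ 0`. -/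
def TopCond (σ : StabCond C) (φ : ℝ) (w : K0 C →+ ℝ) (X : C) : Prop :=
  ∃ (A B : C) (f : A ⟶ X) (g : X ⟶ B) (k : B ⟶ A⟦(1 : ℤ)⟧), Triangle.mk f g k ∈ distTriang C ∧
    σ.sl.P φ A ∧ σ.sl.In (Set.Iio φ) B ∧
    ∀ (A' A'' : C) (a : A' ⟶ A) (b : A ⟶ A'') (c : A'' ⟶ A'⟦(1 : ℤ)⟧),
      Triangle.mk a b c ∈ distTriang C → σ.sl.P φ A' → σ.sl.P φ A'' → w (cls A') ≤ 0

/-- The part `A` of `X` of phase `φ`, the smallest phase: all `P(φ)`-quotients of `A` have `0 ≤ w`. -/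
def BotCond (σ : StabCond C) (φ : ℝ) (w : K0 C →+ ℝ) (X : C) : Prop :=
  ∃ (B A : C) (f : B ⟶ X) (g : X ⟶ A) (k : A ⟶ B⟦(1 : ℤ)⟧), Triangle.mk f g k ∈ distTriang C ∧
    σ.sl.In (Set.Ioi φ) B ∧ σ.sl.P φ A ∧
    ∀ (A' A'' : C) (a : A' ⟶ A) (b : A ⟶ A'') (c : A'' ⟶ A'⟦(1 : ℤ)⟧),
      Triangle.mk a b c ∈ distTriang C → σ.sl.P φ A' → σ.sl.P φ A'' → 0 ≤ w (cls A'')

variable (C)

/-- PGA (60 lines). `σ.finite_classes M` is finite. The phase in `(φ - 1, φ + 1)` of a nonzero semistable object is determined by its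
class: with `t = φ`, `σ.polar` gives `re = ‖Z‖ cos π(ψ - φ)`, `im = ‖Z‖ sin π(ψ - φ)`, so for `|ψ - φ| < 1/2` the number `im / re` of
the class is `tan π(ψ - φ)`. Among the finitely many classes with `im ≠ 0` the numbers `|im x|` have a positive minimum `m₀`;
if `ψ ≠ φ`, `|ψ - φ| < ε` then `0 < |im (cls Y)| = ‖Z‖ |sin π(ψ - φ)| ≤ M π ε < m₀` for small `ε`: contradiction. -/
def Stmt_PGA : Prop := ∀ (_ : EllipticSetting C) (σ : StabCond C) (φ M : ℝ),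
  ∃ ε : ℝ, 0 < ε ∧ ε ≤ 1 / 16 ∧ ∀ (ψ : ℝ) (Y : C), σ.sl.P ψ Y → ¬ IsZero Y →
    ‖σ.Z (cls Y)‖ ≤ M → |ψ - φ| ≤ 2 * ε → ψ = φ

/-- PLO (150 lines; uses PGA). `ε` from PGA for `M = 2 ‖σ.Z (cls A)‖`. `A` has `τ`-phases in `[φ - ε, φ + ε]` (`Near ε τ σ`), so
`A₁, A₂` too (`HN.mem_upper`, `mem_lower` after `exists_HN`: or `A₁ ∈ In U`, and `Hom(P_τ(>φ+ε), A₂) = 0`, ... ; the easiest: take an HN
filtration `l` of `A` for `τ`, `HN.trunc` at `U`, the truncation triangle is unique up to isomorphism (`tri` lemmas)), hence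
`σ`-phases in `[φ - 2ε, φ + 2ε]` (`Near.up`, `Near.low` for `Near ε σ τ`). All three are in the heart `P((t, t + 1])`, `t = φ - 1/2`;
`sub_In`, `quot_In` (`c/Est.lean`) are not even needed. With `polar` at `t' = φ`: for an HN factor `Y` of `A_i`, of phase `χ`,
`re φ (cls Y) = ‖Z Y‖ cos π(χ - φ) ≥ ‖Z Y‖ / 2` (`|χ - φ| ≤ 1/8`), and all real parts are `≥ 0`, the sum over the factors of `A₁`
and `A₂` is `re φ (cls A) = ‖Z A‖` (`cls_mk`, `HN.nonneg`-type induction). So `‖Z Y‖ ≤ 2 ‖Z A‖ = M`, PGA gives `χ = φ` for all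
factors; `In.P_of_singleton`. -/
def Stmt_PLO : Prop := ∀ (_ : EllipticSetting C) (σ : StabCond C) (φ : ℝ) (A : C), σ.sl.P φ A →
  ∃ ε : ℝ, 0 < ε ∧ ∀ τ : StabCond C, StabCond.Near ε σ τ → StabCond.Near ε τ σ →
    ∀ U : Set ℝ, IsUpperSet U → ∀ (A₁ A₂ : C) (a : A₁ ⟶ A) (b : A ⟶ A₂) (c : A₂ ⟶ A₁⟦(1 : ℤ)⟧),
      Triangle.mk a b c ∈ distTriang C → τ.sl.In U A₁ → τ.sl.In Uᶜ A₂ →
      σ.sl.P φ A₁ ∧ σ.sl.P φ A₂

/-- PTD (50 lines; uses PLO). `ε` the minimum of PLO and `1/4`. Truncate `A` for `τ` at `Ioi φ`: `A₁ → A → A₂`, both in `P_σ(φ)`, so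
`σ.im φ (cls A₁) = 0` (`polar`) and `τ.im φ (cls A₁) = η w (cls A₁) ≤ 0`. `A₁` has `τ`-phases in `(φ, φ + ε]` (it is in `P_σ(φ)`,
`Near ε τ σ`), so it is in the heart `P_τ((φ, φ + 1])` with no factor of phase `φ + 1`: `im` is positive unless `A₁` is zero
(`im_pos_of_P`, `P_of_im_HN`). So `A₁ = 0`, `A ≅ A₂`. -/
def Stmt_PTD : Prop := ∀ (_ : EllipticSetting C) (σ : StabCond C) (φ : ℝ) (w : K0 C →+ ℝ) (A : C),
  σ.sl.P φ A → (∀ (A' A'' : C) (a : A' ⟶ A) (b : A ⟶ A'') (c : A'' ⟶ A'⟦(1 : ℤ)⟧),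
    Triangle.mk a b c ∈ distTriang C → σ.sl.P φ A' → σ.sl.P φ A'' → w (cls A') ≤ 0) →
  ∃ ε : ℝ, 0 < ε ∧ ∀ τ : StabCond C, StabCond.Near ε σ τ → StabCond.Near ε τ σ →
    ∀ η : ℝ, 0 < η → (∀ x, τ.im φ x = σ.im φ x + η * w x) → τ.sl.In (Set.Iic φ) A

/-- PBU (50 lines; uses PLO), dual to PTD: truncate at `Ici φ`, `A₂` has `τ`-phases in `[φ - ε, φ)`. `A₂[1]` is in the heart
`P_τ((φ, φ + 1])`, `τ.im φ (cls A₂[1]) = - η w (cls A₂) ≤ 0` (`w (cls A₂) ≥ 0`), positive unless `A₂` is zero. -/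
def Stmt_PBU : Prop := ∀ (_ : EllipticSetting C) (σ : StabCond C) (φ : ℝ) (w : K0 C →+ ℝ) (A : C),
  σ.sl.P φ A → (∀ (A' A'' : C) (a : A' ⟶ A) (b : A ⟶ A'') (c : A'' ⟶ A'⟦(1 : ℤ)⟧),
    Triangle.mk a b c ∈ distTriang C → σ.sl.P φ A' → σ.sl.P φ A'' → 0 ≤ w (cls A'')) →
  ∃ ε : ℝ, 0 < ε ∧ ∀ τ : StabCond C, StabCond.Near ε σ τ → StabCond.Near ε τ σ →
    ∀ η : ℝ, 0 < η → (∀ x, τ.im φ x = σ.im φ x + η * w x) → τ.sl.In (Set.Ici φ) A

/-- PTB (100 lines; uses PTD PBU), one object. From TopCond: `A → X → B`, `A ∈ P_σ(ψ + N)`, `B ∈ In (Iio (ψ + N))`; `B` has finitely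
many phases, all `≤ ψ + N - 2ε` for small `ε` (`B` may be zero), so `B ∈ P_τ(≤ ψ + N - ε)` (`Near.rev_low` for `Near ε τ σ`);
`τ.im (ψ + N) = (-1)^N τ.im ψ` and the same for `σ` (`exp` of an integer multiple, see `exp_pi_int`), so PTD with
`(-1)^N • w` gives `A ∈ P_τ(≤ ψ + N)`; `ext_lower` with `Iic_eq_compl`: `X ∈ P_τ(≤ ψ + N)`. The same from below with PBU,
`Near.rev_up`, `ext_upper`. Then `In.inter`. -/
def Stmt_PTB : Prop := ∀ (_ : EllipticSetting C) (σ : StabCond C) (ψ : ℝ) (N : ℕ)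
  (w : K0 C →+ ℝ) (X : C), TopCond σ (ψ + N) ((-1 : ℤ) ^ N • w) X → BotCond σ ψ w X →
  ∃ ε : ℝ, 0 < ε ∧ ∀ τ : StabCond C, StabCond.Near ε σ τ → StabCond.Near ε τ σ →
    ∀ η : ℝ, 0 < η → ChargeMove σ τ ψ w η → τ.sl.In (Set.Icc ψ (ψ + N)) X

/-- PNP (120 lines; uses LFT NEA). `Xreg.control` (with `W = σ.Z`, `h.mem_Xreg σ`) gives `M` with `‖V x‖ ≤ M nC V ‖σ.Z x‖` for all
`x ≠ 0` of norm `≤ 2` and all `V`; take `V = w i e^{iπψ}`. For `η₁` small `StabCond.exists_deformation` applies to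
`σ.Z + η V`, `|η| ≤ η₁`, so these charges are in `Xreg` (`h.mem_Xreg τ`). LFT for `W s = σ.Z + s η₁ V` gives a path `Γ`, NEA at
`s₀ = 0` with `ε`: for `s ≤ s₁` (some `s₁ > 0`) `Γ s` is near. `η₀ = s₁ η₁`, `τ = Γ (η / η₁)`, joined to `Γ 0 = σ` (`Joined`: a part of the path,
e.g. `Γ.comp` with `s ↦ s * c`, or `JoinedIn`, `Path.truncate`). -/
def Stmt_PNP : Prop := ∀ (_ : EllipticSetting C) (σ : StabCond C) (ψ : ℝ) (w : K0 C →+ ℝ)
  (ε : ℝ), 0 < ε → ∃ η₀ : ℝ, 0 < η₀ ∧ ∀ η : ℝ, 0 ≤ η → η ≤ η₀ →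
    ∃ τ : StabCond C, Joined σ τ ∧ ChargeMove σ τ ψ w η ∧ StabCond.Near ε σ τ ∧
      StabCond.Near ε τ σ

/-- RR2 (60 lines; uses PGE PTB PNP). `ε` the minimum over `l` of PTB (`Near` is monotone in `ε`), `η₀` from PNP, `η ≤ η₀` from PGE for
`im = σ.im ψ`. `τ.im ψ x = σ.im ψ x + η w x` and `τ.re ψ x = σ.re ψ x` from `ChargeMove`. -/
def Stmt_RR2 : Prop := ∀ (_ : EllipticSetting C) (σ : StabCond C) (ψ : ℝ) (N n : ℕ)
  (w : K0 C →+ ℝ) (X : Fin n → C),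
  (∀ l, TopCond σ (ψ + N) ((-1 : ℤ) ^ N • w) (X l)) → (∀ l, BotCond σ ψ w (X l)) →
  ∃ σ' : StabCond C, Joined σ σ' ∧ (∀ l, σ'.sl.In (Set.Icc ψ (ψ + N)) (X l)) ∧
    (∀ x, σ'.im ψ x = 0 ↔ σ.im ψ x = 0 ∧ w x = 0) ∧ (∀ x, σ'.re ψ x = σ.re ψ x) ∧
    ∃ η : ℝ, 0 < η ∧ ChargeMove σ σ' ψ w η

end Pool.Align
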