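import Pool.Agent.Work.MP_841263_pt.Interface

/-! # Perturbation, block PLO (helper20) -/

set_option autoImplicit false

open CategoryTheory CategoryTheory.Limits CategoryTheory.Pretriangulated
open scoped ZeroObject Topology
open Filter

namespace Pool.Align

open Pool.Stab Pool.Tube

universe v u

variable {C : Type u} [Category.{v} C] [Preadditive C] [HasZeroObject C] [HasShift C ℤ]
  [∀ n : ℤ, (shiftFunctor C n).Additive] [Pretriangulated C]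

theorem PLO_cos {x : ℝ} (hx : |x| ≤ 1 / 8) : 1 / 2 ≤ Real.cos (Real.pi * x) := by
  have h1 := Real.one_sub_sq_div_two_le_cos (x := Real.pi * x)
  have h2 : (Real.pi * x) ^ 2 ≤ 1 := by
    have h3 : |Real.pi * x| ≤ 1 := by
      rw [abs_mul, abs_of_pos Real.pi_pos]
      have := Real.pi_lt_four
      nlinarith [abs_nonneg x, Real.pi_pos]
    have h4 := sq_abs (Real.pi * x)
    rw [← h4]
    have h5 := abs_nonneg (Real.pi * x)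
    nlinarith
  linarith

theorem PLO_re_le (σ : StabCond C) (t : ℝ) (x : K0 C) : σ.re t x ≤ ‖σ.Z x‖ := by
  have h := σ.norm_sq t x
  exact (le_abs_self _).trans
    (abs_le_of_sq_le_sq (by nlinarith [sq_nonneg (σ.im t x)]) (norm_nonneg _))

theorem PLO_re (σ : StabCond C) {φ ψ : ℝ} {Y : C} (hY : σ.sl.P ψ Y) (h : |ψ - φ| ≤ 1 / 8) :
    ‖σ.Z (cls Y)‖ ≤ 2 * σ.re φ (cls Y) ∧ 0 ≤ σ.re φ (cls Y) := by
  by_cases h0 : IsZero Y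
  · simp [cls_of_isZero h0]
  obtain ⟨hpos, hre, -⟩ := σ.polar φ hY h0
  have h1 := PLO_cos h
  rw [hre]
  constructor <;> nlinarith

theorem PLO_list (σ : StabCond C) {φ M ε : ℝ} (hε : ε ≤ 1 / 16)
    (hP : ∀ (ψ : ℝ) (Y : C), σ.sl.P ψ Y → ¬ IsZero Y → ‖σ.Z (cls Y)‖ ≤ 2 * M →
      |ψ - φ| ≤ 2 * ε → ψ = φ) {X : C} {l : List ℝ} (hX : HN σ.sl.P X l)
    (hl : ∀ ψ ∈ l, |ψ - φ| ≤ 2 * ε) (hM : σ.re φ (cls X) ≤ M) :
    ∀ ψ ∈ l, ψ = φ := by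
  induction hX with
  | zero h => simp
  | @step X Y A χ l hX hχ hA hA0 f g k hT ih =>
    rw [cls_mk hT, map_add] at hM
    have h1 : |χ - φ| ≤ 2 * ε := hl χ (by simp)
    have h2 := PLO_re σ hA (h1.trans (by linarith))
    have h3 : 0 ≤ σ.re φ (cls X) := hX.nonneg (σ.re φ) (fun ψ hψ Y hY _ =>
      (PLO_re σ hY ((hl ψ (by simp [hψ])).trans (by linarith))).2)
    intro ψ hψ
    rcases List.mem_cons.1 hψ with rfl | h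
    · exact hP _ A hA hA0 (by linarith) h1
    · exact ih (fun ψ' hψ' => hl ψ' (by simp [hψ'])) (by linarith) ψ h

section

variable [IsTriangulated C] [Linear ℂ C] [∀ n : ℤ, (shiftFunctor C n).Linear ℂ]

omit [Linear ℂ C] [∀ n : ℤ, (shiftFunctor C n).Linear ℂ] in
theorem PLO_near {σ τ : StabCond C} {ε φ : ℝ} (hn : StabCond.Near ε σ τ) {X : C} {l : List ℝ}
    (hX : HN τ.sl.P X l) (hl : ∀ ψ ∈ l, φ - ε ≤ ψ ∧ ψ ≤ φ + ε) :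
    ∃ m, HN σ.sl.P X m ∧ ∀ ψ ∈ m, |ψ - φ| ≤ 2 * ε := by
  have h0 : τ.sl.In (Set.Icc (φ - ε) (φ + ε)) X := ⟨l, hX, hl⟩
  have h1 : σ.sl.In (Set.Ici (φ - 2 * ε)) X := hn.up (isUpperSet_Ici _) (fun ψ hψ => by
    have h2 := hψ.1
    show φ - 2 * ε ≤ ψ - ε
    linarith) h0
  have h2 : σ.sl.In (Set.Ioi (φ + 2 * ε))ᶜ X := hn.low (isUpperSet_Ioi _) (fun ψ hψ h3 => by
    have h4 := hψ.2
    have h5 : φ + 2 * ε < ψ + ε := h3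
    linarith) h0
  obtain ⟨m, hm, hm'⟩ := Slicing.In.inter (isUpperSet_Ici _) (isUpperSet_Ioi _) h1 h2
  refine ⟨m, hm, fun ψ hψ => ?_⟩
  obtain ⟨h3, h4⟩ := hm' ψ hψ
  have h5 : ψ ≤ φ + 2 * ε := not_lt.1 h4
  have h6 : φ - 2 * ε ≤ ψ := h3
  rw [abs_le]
  constructor <;> linarith

theorem p_PLO : Stmt_PGA C → Stmt_PLO C := by
  intro hPGA h σ φ A hA
  obtain ⟨ε, hε, hε', hP⟩ := hPGA h σ φ (2 * ‖σ.Z (cls A)‖)
  refine ⟨ε, hε, ?_⟩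
  intro τ hn1 hn2 U hU A₁ A₂ a b c hT hA₁ hA₂
  obtain ⟨l₁, hl₁, hI₁⟩ := hA₁
  obtain ⟨l₂, hl₂, hI₂⟩ := hA₂
  have hg := HN.glue hT hl₁ hl₂ (fun ψ hψ χ hχ => IsUpperSet.sep hU χ (hI₁ χ hχ) ψ (hI₂ ψ hψ))
  have hAτ : τ.sl.In (Set.Icc (φ - ε) (φ + ε)) A := hn2 φ A hA
  have hall : ∀ ψ ∈ l₂ ++ l₁, φ - ε ≤ ψ ∧ ψ ≤ φ + ε := by
    intro ψ hψ
    have h1 := hg.mem_upper (isUpperSet_Ici (φ - ε)) (hAτ.mono (fun x hx => hx.1)) ψ hψ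
    have h2 := hg.mem_lower (isUpperSet_Ioi (φ + ε)) (hAτ.mono (fun x hx => not_lt.2 hx.2)) ψ hψ
    exact ⟨h1, not_lt.1 h2⟩
  obtain ⟨m₁, hm₁, hJ₁⟩ := PLO_near hn1 hl₁ (fun ψ hψ => hall ψ (List.mem_append_right _ hψ))
  obtain ⟨m₂, hm₂, hJ₂⟩ := PLO_near hn1 hl₂ (fun ψ hψ => hall ψ (List.mem_append_left _ hψ))
  have hnn : ∀ (X : C) (m : List ℝ), HN σ.sl.P X m → (∀ ψ ∈ m, |ψ - φ| ≤ 2 * ε) →
      0 ≤ σ.re φ (cls X) := fun X m hX hm => hX.nonneg (σ.re φ) (fun ψ hψ Y hY _ =>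
      (PLO_re σ hY ((hm ψ hψ).trans (by linarith))).2)
  have h1 := hnn A₁ m₁ hm₁ hJ₁
  have h2 := hnn A₂ m₂ hm₂ hJ₂
  have h3 := PLO_re_le σ φ (cls A)
  have h4 : σ.re φ (cls A) = σ.re φ (cls A₁) + σ.re φ (cls A₂) := by
    rw [cls_mk hT, map_add]
  exact ⟨Slicing.In.P_of_singleton ⟨m₁, hm₁, fun ψ hψ =>
      PLO_list σ hε' hP hm₁ hJ₁ (by linarith) ψ hψ⟩,
    Slicing.In.P_of_singleton ⟨m₂, hm₂, fun ψ hψ =>
      PLO_list σ hε' hP hm₂ hJ₂ (by linarith) ψ hψ⟩⟩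

end

end Pool.Align
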