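import Mathlib
import Pool.Agent.Work.MP_841263_pt.Interface

/-! # Block PBU: the lower bound of the phases (helper68) -/

open CategoryTheory CategoryTheory.Limits CategoryTheory.Pretriangulated
open scoped ZeroObject Topology
open Filter

set_option backward.isDefEq.respectTransparency false
set_option backward.defeqAttrib.useBackward true
set_option linter.unusedSectionVars false

namespace Pool.Align

open Pool.Stab Pool.Tube

universe v u

section

variable {C : Type u} [Category.{v} C] [Preadditive C] [HasZeroObject C] [HasShift C ℤ]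
  [∀ n : ℤ, (shiftFunctor C n).Additive] [Pretriangulated C] [IsTriangulated C] [Linear ℂ C]
  [∀ n : ℤ, (shiftFunctor C n).Linear ℂ]

lemma PBU_near_mono {a b : ℝ} {σ τ : StabCond C} (h : StabCond.Near a σ τ) (hle : a ≤ b) :
    StabCond.Near b σ τ := by
  intro φ X hX
  refine (h φ X hX).mono ?_
  intro x hx
  have h1 := hx.1
  have h2 := hx.2
  exact ⟨by linarith, by linarith⟩

/-- An object with phases in the open interval and nonpositive imaginary part is zero. -/
lemma PBU_zero {σ : StabCond C} {t : ℝ} {X : C} (hX : σ.sl.In (Set.Ioo t (t + 1)) X)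
    (h0 : σ.im t (cls X) ≤ 0) : IsZero X := by
  obtain ⟨l, hl, hI⟩ := hX
  have h1 := σ.P_of_im_HN hl (fun φ hφ => ⟨(hI φ hφ).1, (hI φ hφ).2.le⟩) h0
  have h2 : l = [] := by
    rw [List.eq_nil_iff_forall_not_mem]
    intro φ hφ
    have h3 := h1 φ hφ
    have h4 := (hI φ hφ).2
    linarith
  subst h2
  cases hl with
  | zero h => exact h

theorem p_PBU : Stmt_PLO C → Stmt_PBU C := by
  intro hPLO h σ φ w A hA hw
  obtain ⟨ε, hε, hP⟩ := hPLO h σ φ A hA
  refine ⟨min ε (1 / 4), lt_min hε (by norm_num), ?_⟩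
  intro τ hn1 hn2 η hη him
  obtain ⟨A₁, A₂, a, b, c, hT, h1, h2⟩ := τ.sl.exists_trunc A (isUpperSet_Ici φ)
  obtain ⟨hP1, hP2⟩ := hP τ (PBU_near_mono hn1 (min_le_left _ _))
    (PBU_near_mono hn2 (min_le_left _ _)) (Set.Ici φ) (isUpperSet_Ici φ) A₁ A₂ a b c hT h1 h2
  have hw2 := hw A₁ A₂ a b c hT hP1 hP2
  have hσ : σ.im φ (cls A₂) = 0 := by
    by_cases h0 : IsZero A₂
    · rw [cls_of_isZero h0, map_zero]
    · obtain ⟨-, -, h3⟩ := σ.polar φ hP2 h0
      rw [h3, sub_self, mul_zero, Real.sin_zero, mul_zero]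
  have h3 : τ.im φ (cls (A₂⟦(1 : ℤ)⟧)) ≤ 0 := by
    rw [cls_shift_one, map_neg, him, hσ]
    have := mul_nonneg hη.le hw2
    linarith
  have h4 : τ.sl.In (Set.Icc (φ - 1 / 4) (φ + 1 / 4)) A₂ :=
    PBU_near_mono hn2 (min_le_right _ _) φ A₂ hP2
  have h5 : τ.sl.In (Set.Ici (φ - 1 / 4) ∩ (Set.Ici φ)ᶜ) A₂ :=
    Slicing.In.inter (isUpperSet_Ici _) (isUpperSet_Ici _) (h4.mono (fun x hx => hx.1)) h2
  have h6 : τ.sl.In (Set.Ioo φ (φ + 1)) (A₂⟦(1 : ℤ)⟧) := by
    refine h5.shift_one.mono ?_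
    rintro _ ⟨x, ⟨hx1, hx2⟩, rfl⟩
    have h7 : φ - 1 / 4 ≤ x := hx1
    have h8 : x < φ := not_le.1 hx2
    exact ⟨by show φ < x + 1; linarith, by show x + 1 < φ + 1; linarith⟩
  have h8 : IsZero A₂ := (isZero_shift_iff _ _).1 (PBU_zero h6 h3)
  have := iso_of_isZero₃ hT h8
  exact h1.iso (asIso a)

end

end Pool.Align
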