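import Mathlib
import Pool.Agent.Work.MP_841263_pt.Interface

/-!
# Block PGA: semistable objects of bounded mass have no phases close to a given one
-/

open CategoryTheory CategoryTheory.Limits CategoryTheory.Pretriangulated
open scoped ZeroObject Topology
open Filter

namespace Pool.Align

open Pool.Stab Pool.Tube

universe v u

lemma PGA_min {K : Type*} {S : Set K} (hS : S.Finite) (f : K → ℝ) :
    ∃ m : ℝ, 0 < m ∧ ∀ x ∈ S, f x ≠ 0 → m ≤ |f x| := by
  classical
  set F := hS.toFinset.filter (fun x => f x ≠ 0) with hF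
  by_cases hne : F.Nonempty
  · obtain ⟨x₀, hx₀, hmin⟩ := Finset.exists_min_image F (fun x => |f x|) hne
    refine ⟨|f x₀|, abs_pos.2 (Finset.mem_filter.1 hx₀).2, ?_⟩
    intro x hx hx0
    exact hmin x (Finset.mem_filter.2 ⟨hS.mem_toFinset.2 hx, hx0⟩)
  · refine ⟨1, one_pos, ?_⟩
    intro x hx hx0
    exact absurd ⟨x, Finset.mem_filter.2 ⟨hS.mem_toFinset.2 hx, hx0⟩⟩ hne

variable {C : Type u} [Category.{v} C] [Preadditive C] [HasZeroObject C] [HasShift C ℤ]
  [∀ n : ℤ, (shiftFunctor C n).Additive] [Pretriangulated C] [IsTriangulated C] [Linear ℂ C]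
  [∀ n : ℤ, (shiftFunctor C n).Linear ℂ]

variable (C) in
theorem p_PGA : Stmt_PGA C := by
  intro h σ φ M
  have := h.finite
  have := h.free
  have hfin := σ.finite_classes M
  obtain ⟨m, hm, hmin⟩ := PGA_min hfin (fun x => σ.im φ x)
  set N : ℝ := max M 1 with hN
  have hN1 : 1 ≤ N := le_max_right _ _
  have hNM : M ≤ N := le_max_left _ _
  have hpi := Real.pi_pos
  have hNpi : 0 < N * Real.pi * 4 := by positivity
  refine ⟨min (1 / 16) (m / (N * Real.pi * 4)), lt_min (by norm_num) (by positivity),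
    min_le_left _ _, ?_⟩
  intro ψ Y hY hY0 hM hψ
  by_contra hne
  obtain ⟨hpos, -, him⟩ := σ.polar φ hY hY0
  have h1 : |ψ - φ| ≤ 1 / 8 := by
    refine hψ.trans ?_
    have := min_le_left (1 / 16 : ℝ) (m / (N * Real.pi * 4))
    linarith
  have h2 : |ψ - φ| * (N * Real.pi * 2) ≤ m := by
    have h3 := min_le_right (1 / 16 : ℝ) (m / (N * Real.pi * 4))
    have h4 : |ψ - φ| ≤ 2 * (m / (N * Real.pi * 4)) := hψ.trans (by linarith)
    calc |ψ - φ| * (N * Real.pi * 2) ≤ 2 * (m / (N * Real.pi * 4)) * (N * Real.pi * 2) :=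
          mul_le_mul_of_nonneg_right h4 (by positivity)
      _ = m := by field_simp; ring
  have h0 : 0 < |ψ - φ| := abs_pos.2 (sub_ne_zero.2 hne)
  have hsin : Real.sin (Real.pi * (ψ - φ)) ≠ 0 := by
    intro hs
    rw [Real.sin_eq_zero_iff_of_lt_of_lt] at hs
    · rcases mul_eq_zero.1 hs with h5 | h5
      · exact hpi.ne' h5
      · exact hne (sub_eq_zero.1 h5)
    · have := (abs_le.1 h1).1
      nlinarith
    · have := (abs_le.1 h1).2
      nlinarith
  have him0 : σ.im φ (cls Y) ≠ 0 := by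
    rw [him]
    exact mul_ne_zero hpos.ne' hsin
  have h6 := hmin (cls Y) ⟨⟨ψ, Y, hY, rfl⟩, hM⟩ him0
  have h7 : |σ.im φ (cls Y)| ≤ N * (Real.pi * |ψ - φ|) := by
    rw [him, abs_mul, abs_of_pos hpos]
    refine mul_le_mul (hM.trans hNM) ?_ (abs_nonneg _) (by positivity)
    calc |Real.sin (Real.pi * (ψ - φ))| ≤ |Real.pi * (ψ - φ)| := Real.abs_sin_le_abs
      _ = Real.pi * |ψ - φ| := by rw [abs_mul, abs_of_pos hpi]
  have h8 : 0 < N * (Real.pi * |ψ - φ|) := by positivity
  have h9 : m ≤ |σ.im φ (cls Y)| := h6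
  nlinarith

end Pool.Align
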