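import Pool.Agent.Work.MP_841263_pt.Interface

/-!
Block PGE: a generic parameter.
-/

open CategoryTheory CategoryTheory.Limits CategoryTheory.Pretriangulated
open scoped ZeroObject Topology
open Filter

namespace Pool.Align

open Pool.Stab Pool.Tube

universe v u

theorem p_PGE : Stmt_PGE.{u} := by
  intro K _ _ _ im w η₀ hη₀
  haveI : Countable K :=
    (Module.Free.chooseBasis ℤ K).equivFun.toEquiv.countable_iff.2 inferInstance
  by_contra hno
  push Not at hno
  have hsub : Set.Ioc (0 : ℝ) η₀ ⊆ Set.range (fun x : K => - im x / w x) := by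
    intro η hη
    obtain ⟨x, hx, hx2⟩ := hno η hη.1 hη.2
    have hw : w x ≠ 0 := by
      intro h0
      rw [h0, mul_zero, add_zero] at hx
      exact hx2 hx h0
    refine ⟨x, ?_⟩
    show - im x / w x = η
    rw [div_eq_iff hw]
    linarith
  have hc : (Set.Ioc (0 : ℝ) η₀).Countable := (Set.countable_range _).mono hsub
  have h0 : MeasureTheory.volume (Set.Ioc (0 : ℝ) η₀) = 0 := hc.measure_zero _
  rw [Real.volume_Ioc, ENNReal.ofReal_eq_zero] at h0
  linarith

end Pool.Align
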