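import Pool.Agent.Work.MP_841263_pt.Interface

/-!
# Block PNP: moving the charge along a functional, near (helper55)
-/

open CategoryTheory CategoryTheory.Limits CategoryTheory.Pretriangulated
open scoped ZeroObject Topology
open Filter

set_option backward.isDefEq.respectTransparency false
set_option backward.defeqAttrib.useBackward true

namespace Pool.Align

open Pool.Stab Pool.Tube

universe v u

variable {C : Type u} [Category.{v} C] [Preadditive C] [HasZeroObject C] [HasShift C ℤ]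
  [∀ n : ℤ, (shiftFunctor C n).Additive] [Pretriangulated C] [IsTriangulated C] [Linear ℂ C]
  [∀ n : ℤ, (shiftFunctor C n).Linear ℂ]

/-- Charges close to the charge of `σ` in the direction `u` are regular. -/
lemma PNP_reg (h : EllipticSetting C) (σ : StabCond C) (u : K0 C →+ ℂ) :
    ∃ η₁ : ℝ, 0 < η₁ ∧ ∀ (W : K0 C →+ ℂ) (s : ℝ), 0 ≤ s → s ≤ 1 →
      (∀ x, W x = σ.Z x + ((s * η₁ : ℝ) : ℂ) * u x) → W ∈ Xreg (eulerForm h.k3) := by
  have := h.finite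
  have := h.free
  obtain ⟨M, hM0, hM⟩ := Xreg.control h.psd' h.even h.rank (h.mem_Xreg σ)
  have hpi := Real.pi_pos
  have hsin : 0 < Real.sin (Real.pi * (1 / 8)) :=
    Real.sin_pos_of_pos_of_lt_pi (by positivity) (by nlinarith)
  obtain ⟨ε', hε'⟩ : ∃ ε' : ℝ, ε' = Real.sin (Real.pi * (1 / 8)) / 2 := ⟨_, rfl⟩
  have hε0 : 0 < ε' := by rw [hε']; positivity
  have hMn : 0 ≤ M * nC u := mul_nonneg hM0 (nC_nonneg u)
  obtain ⟨η₁, hη₁, hη₁'⟩ : ∃ η₁ : ℝ, 0 < η₁ ∧ η₁ * (M * nC u) ≤ ε' := by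
    refine ⟨ε' / (M * nC u + 1), by positivity, ?_⟩
    rw [div_mul_eq_mul_div, div_le_iff₀ (by positivity)]
    nlinarith
  refine ⟨η₁, hη₁, ?_⟩
  intro W s hs0 hs1 hW
  obtain ⟨τ, hτ, -⟩ := σ.exists_deformation h.k3 hε0.le (by norm_num : (0 : ℝ) < 1 / 8) le_rfl
    (by rw [hε']; linarith) W (by
      intro x hx hx2
      have h1 := hM u x hx hx2
      have e1 : W x - σ.Z x = ((s * η₁ : ℝ) : ℂ) * u x := by
        rw [hW]
        ring
      rw [e1, norm_mul, Complex.norm_real, Real.norm_eq_abs, abs_of_nonneg (by positivity)]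
      have h2 : s * η₁ * ‖u x‖ ≤ η₁ * ‖u x‖ :=
        mul_le_mul_of_nonneg_right (mul_le_of_le_one_left hη₁.le hs1) (norm_nonneg _)
      have h3 : η₁ * ‖u x‖ ≤ η₁ * (M * nC u) * ‖σ.Z x‖ := by
        rw [mul_assoc]
        exact mul_le_mul_of_nonneg_left h1 hη₁.le
      have h4 : η₁ * (M * nC u) * ‖σ.Z x‖ ≤ ε' * ‖σ.Z x‖ :=
        mul_le_mul_of_nonneg_right hη₁' (norm_nonneg _)
      linarith)
  rw [← hτ]
  exact h.mem_Xreg τ

theorem p_PNP : Stmt_LFT C → Stmt_NEA C → Stmt_PNP C := by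
  intro hLFT hNEA h σ ψ w ε hε
  obtain ⟨u, hu⟩ : ∃ u : K0 C →+ ℂ, ∀ x, u x =
      Complex.I * Complex.exp (Real.pi * ψ * Complex.I) * (w x : ℂ) :=
    ⟨(AddMonoidHom.mulLeft (Complex.I * Complex.exp (Real.pi * ψ * Complex.I))).comp
      (Complex.ofRealHom.toAddMonoidHom.comp w), fun x => rfl⟩
  obtain ⟨η₁, hη₁, hreg'⟩ := PNP_reg h σ u
  obtain ⟨W, hW⟩ : ∃ W : ℝ → (K0 C →+ ℂ), ∀ s x, W s x = σ.Z x + ((s * η₁ : ℝ) : ℂ) * u x :=
    ⟨fun s => σ.Z + (AddMonoidHom.mulLeft ((s * η₁ : ℝ) : ℂ)).comp u, fun s x => rfl⟩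
  have hcont : ∀ x, Continuous (fun s => W s x) := by
    intro x
    simp only [hW]
    fun_prop
  have hreg : ∀ s ∈ Set.Icc (0 : ℝ) 1, W s ∈ Xreg (eulerForm h.k3) :=
    fun s hs => hreg' (W s) s hs.1 hs.2 (hW s)
  have hW0 : W 0 = σ.Z := by
    ext x
    rw [hW]
    simp
  obtain ⟨Γ, hΓ0, hΓ⟩ := hLFT h σ W hcont hreg hW0
  obtain ⟨s₁, hs₁, hnear⟩ := Metric.eventually_nhds_iff.1 (hNEA h Γ 0 ε hε)
  have hmin : 0 < min (s₁ / 2) 1 := lt_min (by linarith) one_pos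
  refine ⟨min (s₁ / 2) 1 * η₁, by positivity, ?_⟩
  intro η hη0 hη
  have hs0 : 0 ≤ η / η₁ := by positivity
  have hs : η / η₁ ≤ min (s₁ / 2) 1 := by
    rw [div_le_iff₀ hη₁]
    exact hη
  have hs1 : η / η₁ ≤ 1 := hs.trans (min_le_right _ _)
  have hs2 : η / η₁ ≤ s₁ / 2 := hs.trans (min_le_left _ _)
  obtain ⟨s, hsv⟩ : ∃ s : unitInterval, (s : ℝ) = η / η₁ := ⟨⟨η / η₁, hs0, hs1⟩, rfl⟩
  have hd : dist s 0 < s₁ := by
    rw [Subtype.dist_eq, hsv, Real.dist_eq]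
    change |η / η₁ - 0| < s₁
    rw [sub_zero, abs_of_nonneg hs0]
    linarith
  have hn := hnear hd
  rw [hΓ0] at hn
  refine ⟨Γ s, ?_, ?_, hn.2, hn.1⟩
  · have hpc : PathConnectedSpace unitInterval := isPathConnected_iff_pathConnectedSpace.1
      ((convex_Icc (0 : ℝ) 1).isPathConnected ⟨0, by simp⟩)
    have h1 : Joined (0 : unitInterval) s := PathConnectedSpace.joined 0 s
    have h2 := h1.map Γ.continuous
    rw [hΓ0] at h2
    exact h2
  · intro x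
    rw [hΓ, hsv, hW, hu, div_mul_cancel₀ _ hη₁.ne']
    push_cast
    ring

end Pool.Align
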