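import Pool.Agent.Work.MP_841263_pt.Interface

set_option autoImplicit false
set_option linter.unusedSectionVars false

/-! # MP_841263, perturbation along a functional, block PRK: the rank drops (helper88) -/

open CategoryTheory CategoryTheory.Limits CategoryTheory.Pretriangulated
open scoped ZeroObject Topology
open Filter

namespace Pool.Align

open Pool.Stab Pool.Tube

universe v u

theorem PRK_rank {R : Type} [CommRing R] [IsDomain R] {M : Type u} {A : Type} [AddCommGroup M]
    [AddCommGroup A] [Module R M] [Module R A] [Module.Finite R M] [Module.IsTorsionFree R A]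
    (f : M →ₗ[R] A) {x : M} (hx : f x ≠ 0) :
    Module.finrank R (LinearMap.ker f) < Module.finrank R M := by
  have h1 := Submodule.finrank_quotient_add_finrank (LinearMap.ker f)
  have h2 : Module.finrank R (M ⧸ LinearMap.ker f) = Module.finrank R (LinearMap.range f) :=
    LinearEquiv.finrank_eq f.quotKerEquivRange
  have h3 : Nontrivial (LinearMap.range f) :=
    ⟨⟨f x, ⟨x, rfl⟩⟩, 0, fun e => hx (congrArg Subtype.val e)⟩
  have h5 : Module.Finite R (LinearMap.range f) := Module.Finite.equiv f.quotKerEquivRange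
  have h4 : 0 < Module.finrank R (LinearMap.range f) := Module.finrank_pos
  omega

/-- The kernel of the restriction of `w` to `ker im` is `ker im'`. -/
def PRK_equiv {K : Type u} [AddCommGroup K] (im im' w : K →+ ℝ)
    (h : ∀ x, im' x = 0 ↔ im x = 0 ∧ w x = 0) :
    (LinearMap.ker (w.comp im.ker.subtype).toIntLinearMap) ≃+ im'.ker where
  toFun x := ⟨x.1.1, by
    rw [AddMonoidHom.mem_ker]
    exact (h _).2 ⟨x.1.2, x.2⟩⟩
  invFun x := ⟨⟨x.1, ((h _).1 x.2).1⟩, ((h _).1 x.2).2⟩
  left_inv x := rfl
  right_inv x := rfl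
  map_add' x y := rfl

theorem PRK_finite {K : Type u} [AddCommGroup K] [Module.Finite ℤ K] (im : K →+ ℝ) :
    Module.Finite ℤ im.ker := by
  have h1 : IsNoetherian ℤ K := isNoetherian_of_isNoetherianRing_of_finite ℤ K
  let f : im.ker →ₗ[ℤ] K := im.ker.subtype.toIntLinearMap
  exact Module.Finite.of_injective f (fun x y hxy => Subtype.ext hxy)

theorem p_PRK : Stmt_PRK.{u} := by
  intro K _ _ _ im im' w hiff hex
  obtain ⟨x, hx, hwx⟩ := hex
  have hfin := PRK_finite im
  have h1 := PRK_rank (w.comp im.ker.subtype).toIntLinearMap (x := ⟨x, hx⟩) hwx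
  have h2 := LinearEquiv.finrank_eq (PRK_equiv im im' w hiff).toIntLinearEquiv
  rw [← h2]
  exact h1

end Pool.Align
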