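import Pool.Agent.Work.MP_841263_pt.Interface

/-!
# Block PTB: one object keeps its phases
-/

open CategoryTheory CategoryTheory.Limits CategoryTheory.Pretriangulated
open scoped ZeroObject Topology
open Filter

set_option backward.isDefEq.respectTransparency false
set_option backward.defeqAttrib.useBackward true
set_option linter.unusedSectionVars false

namespace Pool.Align

open Pool.Stab Pool.Tube

universe v u

variable {C : Type u} [Category.{v} C] [Preadditive C] [HasZeroObject C] [HasShift C ℤ]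
  [∀ n : ℤ, (shiftFunctor C n).Additive] [Pretriangulated C] [IsTriangulated C] [Linear ℂ C]
  [∀ n : ℤ, (shiftFunctor C n).Linear ℂ]

lemma PTB_exp (ψ : ℝ) (N : ℕ) : Complex.exp (Real.pi * ψ * Complex.I) *
    Complex.exp (-(Real.pi * ((ψ + N : ℝ) : ℂ) * Complex.I)) = (((-1 : ℝ) ^ N : ℝ) : ℂ) := by
  rw [← Complex.exp_add]
  have h1 : (Real.pi * ψ * Complex.I + -(Real.pi * ((ψ + N : ℝ) : ℂ) * Complex.I) : ℂ) =
      (N : ℂ) * (-(Real.pi * Complex.I)) := by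
    push_cast
    ring
  rw [h1, Complex.exp_nat_mul, Complex.exp_neg, Complex.exp_pi_mul_I]
  push_cast
  norm_num

lemma PTB_im {σ τ : StabCond C} {ψ η : ℝ} {w : K0 C →+ ℝ} (h : ChargeMove σ τ ψ w η) (N : ℕ)
    (x : K0 C) : τ.im (ψ + N) x = σ.im (ψ + N) x + η * (((-1 : ℤ) ^ N • w) x) := by
  rw [StabCond.im_apply, StabCond.im_apply, h x, add_mul, Complex.add_im]
  congr 1
  have e : ((η * w x : ℝ) : ℂ) * Complex.I * Complex.exp (Real.pi * ψ * Complex.I) *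
      Complex.exp (-(Real.pi * ((ψ + N : ℝ) : ℂ) * Complex.I)) =
      ((η * w x * (-1 : ℝ) ^ N : ℝ) : ℂ) * Complex.I := by
    rw [mul_assoc (((η * w x : ℝ) : ℂ) * Complex.I), PTB_exp]
    push_cast
    ring
  rw [e]
  have e2 : (((-1 : ℤ) ^ N • w) x : ℝ) = (-1 : ℝ) ^ N * w x := by
    show (-1 : ℤ) ^ N • w x = (-1 : ℝ) ^ N * w x
    rw [zsmul_eq_mul]
    push_cast
    ring
  rw [e2, Complex.mul_I_im, Complex.ofReal_re]
  ring

lemma PTB_mono {σ τ : StabCond C} {δ ε : ℝ} (h : StabCond.Near δ σ τ) (hδ : δ ≤ ε) :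
    StabCond.Near ε σ τ := by
  intro φ X hX
  refine (h φ X hX).mono ?_
  intro x hx
  exact ⟨by linarith [hx.1], by linarith [hx.2]⟩

lemma PTB_gap_low {σ : StabCond C} {φ : ℝ} {B : C} (h : σ.sl.In (Set.Iio φ) B) :
    ∃ ε : ℝ, 0 < ε ∧ σ.sl.In (Set.Iic (φ - ε)) B := by
  obtain ⟨l, hl, hI⟩ := h
  by_cases h0 : l = []
  · subst h0
    exact ⟨1, one_pos, [], hl, by simp⟩
  · obtain ⟨m, hm, hmax⟩ := exists_max_list h0
    have hm1 : m < φ := hI m hm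
    refine ⟨φ - m, by linarith, l, hl, fun x hx => ?_⟩
    have := hmax x hx
    show x ≤ φ - (φ - m)
    linarith

lemma PTB_gap_up {σ : StabCond C} {φ : ℝ} {B : C} (h : σ.sl.In (Set.Ioi φ) B) :
    ∃ ε : ℝ, 0 < ε ∧ σ.sl.In (Set.Ici (φ + ε)) B := by
  obtain ⟨l, hl, hI⟩ := h
  by_cases h0 : l = []
  · subst h0
    exact ⟨1, one_pos, [], hl, by simp⟩
  · obtain ⟨m, hm, hmin⟩ := exists_min_list h0
    have hm1 : φ < m := hI m hm
    refine ⟨m - φ, by linarith, l, hl, fun x hx => ?_⟩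
    have := hmin x hx
    show φ + (m - φ) ≤ x
    linarith

theorem p_PTB : Stmt_PTD C → Stmt_PBU C → Stmt_PTB C := by
  intro h1 h2 hE σ ψ N w X hTop hBot
  obtain ⟨A, B, f, g, k, hT, hA, hB, hsub⟩ := hTop
  obtain ⟨B', A', f', g', k', hT', hB', hA', hquo⟩ := hBot
  obtain ⟨ε1, hε1, H1⟩ := h1 hE σ (ψ + N) ((-1 : ℤ) ^ N • w) A hA hsub
  obtain ⟨ε2, hε2, H2⟩ := h2 hE σ ψ w A' hA' hquo
  obtain ⟨ε3, hε3, H3⟩ := PTB_gap_low hB
  obtain ⟨ε4, hε4, H4⟩ := PTB_gap_up hB'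
  refine ⟨min (min ε1 ε2) (min ε3 ε4), by positivity, ?_⟩
  intro τ hn1 hn2 η hη hZ
  have l1 : min (min ε1 ε2) (min ε3 ε4) ≤ ε1 := (min_le_left _ _).trans (min_le_left _ _)
  have l2 : min (min ε1 ε2) (min ε3 ε4) ≤ ε2 := (min_le_left _ _).trans (min_le_right _ _)
  have l3 : min (min ε1 ε2) (min ε3 ε4) ≤ ε3 := (min_le_right _ _).trans (min_le_left _ _)
  have l4 : min (min ε1 ε2) (min ε3 ε4) ≤ ε4 := (min_le_right _ _).trans (min_le_right _ _)
  -- from above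
  have hAτ : τ.sl.In (Set.Iic (ψ + N)) A :=
    H1 τ (PTB_mono hn1 l1) (PTB_mono hn2 l1) η hη (fun x => PTB_im hZ N x)
  have hBτ : τ.sl.In (Set.Iic (ψ + N)) B := by
    refine ((PTB_mono hn1 l3).rev_low H3).mono ?_
    intro x hx
    have : x ≤ ψ + N - ε3 + ε3 := hx
    show x ≤ ψ + N
    linarith
  rw [Iic_eq_compl] at hAτ hBτ
  have hXlow : τ.sl.In (Set.Ioi (ψ + N))ᶜ X :=
    Slicing.In.ext_lower (isUpperSet_Ioi _) hT hAτ hBτ
  -- from below
  have hA'τ : τ.sl.In (Set.Ici ψ) A' := by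
    refine H2 τ (PTB_mono hn1 l2) (PTB_mono hn2 l2) η hη (fun x => ?_)
    have h := PTB_im hZ 0 x
    simpa using h
  have hB'τ : τ.sl.In (Set.Ici ψ) B' := by
    refine ((PTB_mono hn1 l4).rev_up H4).mono ?_
    intro x hx
    have : ψ + ε4 - ε4 ≤ x := hx
    show ψ ≤ x
    linarith
  have hXup : τ.sl.In (Set.Ici ψ) X :=
    Slicing.In.ext_upper (isUpperSet_Ici _) hT' hB'τ hA'τ
  refine (Slicing.In.inter (isUpperSet_Ici _) (isUpperSet_Ioi _) hXup hXlow).mono ?_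
  rintro x ⟨hx1, hx2⟩
  exact ⟨hx1, not_lt.1 hx2⟩

end Pool.Align
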