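import Pool.Agent.Work.MP_841263_pt.Interface

/-!
# Block PTD: the upper phase of an object of `P(φ)` after a perturbation
-/

open CategoryTheory CategoryTheory.Limits CategoryTheory.Pretriangulated
open scoped ZeroObject Topology
open Filter

namespace Pool.Align

open Pool.Stab Pool.Tube

universe v u

variable {C : Type u} [Category.{v} C] [Preadditive C] [HasZeroObject C] [HasShift C ℤ]
  [∀ n : ℤ, (shiftFunctor C n).Additive] [Pretriangulated C] [IsTriangulated C] [Linear ℂ C]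
  [∀ n : ℤ, (shiftFunctor C n).Linear ℂ]

omit [Linear ℂ C] [∀ n : ℤ, (shiftFunctor C n).Linear ℂ] [IsTriangulated C] in
theorem PTD_mono {σ τ : StabCond C} {δ δ' : ℝ} (h : StabCond.Near δ σ τ) (hδ : δ ≤ δ') :
    StabCond.Near δ' σ τ := by
  intro φ X hX
  refine (h φ X hX).mono ?_
  rintro x ⟨h1, h2⟩
  exact ⟨by linarith, by linarith⟩

omit [Linear ℂ C] [∀ n : ℤ, (shiftFunctor C n).Linear ℂ] [IsTriangulated C] in
theorem PTD_im (σ : StabCond C) {φ : ℝ} {X : C} (hX : σ.sl.P φ X) : σ.im φ (cls X) = 0 := by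
  by_cases h0 : IsZero X
  · rw [cls_of_isZero h0, map_zero]
  · rw [(σ.polar φ hX h0).2.2]
    simp

theorem p_PTD : Stmt_PLO C → Stmt_PTD C := by
  intro hPLO hE σ φ w A hA hw
  obtain ⟨ε₀, hε₀, h⟩ := hPLO hE σ φ A hA
  refine ⟨min ε₀ (1 / 4), lt_min hε₀ (by norm_num), ?_⟩
  intro τ h1 h2 η hη him
  obtain ⟨A₁, A₂, a, b, c, hT, hA₁, hA₂⟩ := τ.sl.exists_trunc A (isUpperSet_Ioi φ)
  obtain ⟨hP1, hP2⟩ := h τ (PTD_mono h1 (min_le_left _ _)) (PTD_mono h2 (min_le_left _ _))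
    (Set.Ioi φ) (isUpperSet_Ioi φ) A₁ A₂ a b c hT hA₁ hA₂
  have hw1 : w (cls A₁) ≤ 0 := hw A₁ A₂ a b c hT hP1 hP2
  have him1 : τ.im φ (cls A₁) ≤ 0 := by
    rw [him, PTD_im σ hP1, zero_add]
    exact mul_nonpos_of_nonneg_of_nonpos hη.le hw1
  have h3 : τ.sl.In (Set.Icc (φ - 1 / 4) (φ + 1 / 4)) A₁ :=
    PTD_mono h2 (min_le_right _ _) φ A₁ hP1
  obtain ⟨l, hl, hlI⟩ := hA₁
  have h4 : ∀ χ ∈ l, χ ≤ φ + 1 / 4 := by
    intro χ hχ
    refine not_lt.1 (hl.mem_lower (isUpperSet_Ioi (φ + 1 / 4)) (h3.mono ?_) χ hχ)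
    intro x hx
    exact not_lt.2 hx.2
  have hl0 : l = [] := by
    rw [List.eq_nil_iff_forall_not_mem]
    intro χ hχ
    have h5 := τ.P_of_im_HN hl (t := φ) (fun ψ hψ => ⟨hlI ψ hψ, by
      have := h4 ψ hψ
      linarith⟩) him1 χ hχ
    have h6 := h4 χ hχ
    linarith
  subst hl0
  have hz : IsZero A₁ := hl.isZero
  have := iso_of_isZero₁ hT hz
  rw [Iic_eq_compl]
  exact hA₂.iso (asIso b).symm

end Pool.Align
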