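import Mathlib
import Pool.Agent.Work.MP_841263_pt.Interface

open CategoryTheory CategoryTheory.Limits CategoryTheory.Pretriangulated
open scoped ZeroObject Topology
open Filter

set_option backward.isDefEq.respectTransparency false
set_option backward.defeqAttrib.useBackward true
set_option linter.unusedSectionVars false

namespace Pool.Align

open Pool.Stab Pool.Tube

universe v u

variable {C : Type u} [Category.{v} C] [Preadditive C] [HasZeroObject C] [HasShift C ℤ]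
  [∀ n : ℤ, (shiftFunctor C n).Additive] [Pretriangulated C] [IsTriangulated C] [Linear ℂ C]
  [∀ n : ℤ, (shiftFunctor C n).Linear ℂ]

theorem RR2_rot (ψ a : ℝ) : ((a : ℝ) : ℂ) * Complex.I * Complex.exp (Real.pi * ψ * Complex.I) *
    Complex.exp (-(Real.pi * ψ * Complex.I)) = (a : ℂ) * Complex.I := by
  rw [mul_assoc, ← Complex.exp_add, add_neg_cancel, Complex.exp_zero, mul_one]

theorem RR2_im {σ τ : StabCond C} {ψ : ℝ} {w : K0 C →+ ℝ} {η : ℝ} (h : ChargeMove σ τ ψ w η)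
    (x : K0 C) : τ.im ψ x = σ.im ψ x + η * w x := by
  rw [StabCond.im_apply, StabCond.im_apply, h x, add_mul, Complex.add_im, RR2_rot]
  simp

theorem RR2_re {σ τ : StabCond C} {ψ : ℝ} {w : K0 C →+ ℝ} {η : ℝ} (h : ChargeMove σ τ ψ w η)
    (x : K0 C) : τ.re ψ x = σ.re ψ x := by
  rw [StabCond.re_apply, StabCond.re_apply, h x, add_mul, Complex.add_re, RR2_rot]
  simp

theorem RR2_near {σ τ : StabCond C} {a b : ℝ} (hab : a ≤ b) (h : StabCond.Near a σ τ) :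
    StabCond.Near b σ τ := fun φ X hX =>
  (h φ X hX).mono (Set.Icc_subset_Icc (by linarith) (by linarith))

theorem p_RR2 : Stmt_PGE.{u} → Stmt_PTB C → Stmt_PNP C → Stmt_RR2 C := by
  intro hPGE hPTB hPNP hE σ ψ N n w X hT hB
  haveI := hE.finite
  haveI := hE.free
  choose ε hε hP using fun l => hPTB hE σ ψ N w (X l) (hT l) (hB l)
  obtain ⟨ε₀, hε₀, hε₀l⟩ : ∃ ε₀ : ℝ, 0 < ε₀ ∧ ∀ l, ε₀ ≤ ε l := by
    have h1 : ∀ᶠ e in 𝓝[>] (0 : ℝ), ∀ l, e ≤ ε l := eventually_all.2 fun l =>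
      (nhdsWithin_le_nhds (Iic_mem_nhds (hε l)))
    obtain ⟨e, he, he'⟩ := (h1.and self_mem_nhdsWithin).exists
    exact ⟨e, he', he⟩
  obtain ⟨η₀, hη₀, hpath⟩ := hPNP hE σ ψ w ε₀ hε₀
  obtain ⟨η, hη, hη', hgen⟩ := hPGE (K0 C) (σ.im ψ) w η₀ hη₀
  obtain ⟨τ, hj, hc, hn1, hn2⟩ := hpath η hη.le hη'
  refine ⟨τ, hj, fun l => ?_, fun x => ?_, RR2_re hc, η, hη, hc⟩
  · exact hP l τ (RR2_near (hε₀l l) hn1) (RR2_near (hε₀l l) hn2) η hη hc
  · rw [RR2_im hc]
    refine ⟨hgen x, fun h => ?_⟩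
    rw [h.1, h.2, mul_zero, add_zero]

end Pool.Align
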