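import Mathlib
import Pool.Agent.Work.MP_841263_pt.B_PGE
import Pool.Agent.Work.MP_841263_pt.B_PRK
import Pool.Agent.Work.MP_841263_pt.B_PGA
import Pool.Agent.Work.MP_841263_pt.B_PLO
import Pool.Agent.Work.MP_841263_pt.B_PTD
import Pool.Agent.Work.MP_841263_pt.B_PBU
import Pool.Agent.Work.MP_841263_pt.B_PTB
import Pool.Agent.Work.MP_841263_pt.B_PNP
import Pool.Agent.Work.MP_841263_pt.B_RR2
import Pool.Agent.Work.MP_841263_al.B_LFT
import Pool.Agent.Work.MP_841263_al.B_NEA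

/-!
# Perturbation along a functional: all blocks
-/

open CategoryTheory CategoryTheory.Limits CategoryTheory.Pretriangulated
open scoped ZeroObject Topology

namespace Pool.Align

open Pool.Stab Pool.Tube

universe v u

variable (C : Type u) [Category.{v} C] [Preadditive C] [HasZeroObject C] [HasShift C ℤ]
  [∀ n : ℤ, (shiftFunctor C n).Additive] [Pretriangulated C] [IsTriangulated C] [Linear ℂ C]
  [∀ n : ℤ, (shiftFunctor C n).Linear ℂ]

theorem q_PGE : Stmt_PGE.{u} := p_PGE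
theorem q_PRK : Stmt_PRK.{u} := p_PRK
theorem q_PGA : Stmt_PGA C := p_PGA C
theorem q_PLO : Stmt_PLO C := p_PLO (q_PGA C)
theorem q_PTD : Stmt_PTD C := p_PTD (q_PLO C)
theorem q_PBU : Stmt_PBU C := p_PBU (q_PLO C)
theorem q_PTB : Stmt_PTB C := p_PTB (q_PTD C) (q_PBU C)
theorem q_PNP : Stmt_PNP C := p_PNP p_LFT (p_NEA C)
theorem q_RR2 : Stmt_RR2 C := p_RR2 q_PGE (q_PTB C) (q_PNP C)

end Pool.Align
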